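import Mathlib
import Pool.Agent.V11181.Copies

set_option autoImplicit false

/-!
# LPECC codes with `e = w - 2`

For all `t ≥ 1` and `w ≥ 4` the quantity `C(n,t,w,w-2)/n²` has lower limit at least
`1/((t+1) w (w-1) - w (w-3))`, which is larger than `1/((t+1) w (w-1))`.  Each class consists of
all `w`-subsets of `t` disjoint sets, one of size `w + 1` and the others of size `w`; the classes
are packed pair-disjointly by the weighted nibble theorem.
-/

namespace Pool.Agent.Results.MP_00ae1c_co.LargerClasses

open Finset Function Filter Topology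

/-- support of a binary word -/
def supp {n : ℕ} (x : Fin n → Bool) : Finset (Fin n) := univ.filter fun i => x i = true

/-- `P` is an `(n, t, w, e)`-LPECC code of size `b`: `b` nonempty disjoint classes of words such
that the support of some word of each class avoids any given `t`-subset, all words have weight at
most `w`, and words of different classes are at distance at least `2e + 1`. -/
def IsLPECC (n t w e b : ℕ) (P : Fin b → Set (Fin n → Bool)) : Prop :=
  (∀ i, (P i).Nonempty) ∧ (∀ i j, i ≠ j → Disjoint (P i) (P j)) ∧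
  (∀ T : Finset (Fin n), T.card = t → ∀ i, ∃ x ∈ P i, Disjoint (supp x) T) ∧
  (∀ i, ∀ x ∈ P i, (supp x).card ≤ w) ∧
  (∀ i j, i ≠ j → ∀ x ∈ P i, ∀ y ∈ P j, 2 * e + 1 ≤ hammingDist x y)

/-- `C(n,t,w,e)`: the largest size of an `(n, t, w, e)`-LPECC code -/
noncomputable def C (n t w e : ℕ) : ℕ :=
  sSup {b | ∃ P : Fin b → Set (Fin n → Bool), IsLPECC n t w e b P}

lemma bdd (n t w e : ℕ) :
    BddAbove {b | ∃ P : Fin b → Set (Fin n → Bool), IsLPECC n t w e b P} := by
  refine ⟨2 ^ n, ?_⟩
  rintro b ⟨P, hP⟩
  choose f hf using hP.1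
  have hinj : Injective f := by
    intro i j hij
    by_contra hne
    have := Set.disjoint_left.1 (hP.2.1 i j hne) (hf i)
    rw [hij] at this
    exact this (hf j)
  have := Fintype.card_le_of_injective f hinj
  simpa using this

open Pool.Agent.V11181.Copies in
/-- the code obtained from a packing of copies of the pattern -/
lemma code_of_packing {n t w : ℕ} (ht : 0 < t) (hw : 3 ≤ w) (M : Finset (J t w → Fin n))
    (hM1 : ∀ φ ∈ M, Injective φ)
    (hM2 : ∀ φ ∈ M, ∀ ψ ∈ M, φ ≠ ψ → Disjoint (A ht φ) (A ht ψ)) :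
    M.card ≤ C n t w (w - 2) := by
  classical
  apply le_csSup (bdd n t w (w - 2))
  let e := M.equivFin.symm
  let P : Fin M.card → Set (Fin n → Bool) := fun i =>
    {x | (supp x).card = w ∧ ∃ j : Fin t, ∀ a ∈ supp x, ∃ z, blk ht z = j ∧ (e i).1 z = a}
  have hint : ∀ i j, i ≠ j → ∀ x ∈ P i, ∀ y ∈ P j, (supp x ∩ supp y).card ≤ 1 := by
    intro i j hij x hx y hy
    by_contra hcon
    push Not at hcon
    obtain ⟨a, ha, b, hb, hab⟩ := one_lt_card.1 hcon
    rw [mem_inter] at ha hb
    obtain ⟨-, k, hk⟩ := hx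
    obtain ⟨-, l, hl⟩ := hy
    have hne : (e i).1 ≠ (e j).1 := by
      intro h
      exact hij (e.injective (Subtype.ext h))
    have hd := hM2 _ (e i).2 _ (e j).2 hne
    obtain ⟨z1, h1, h2⟩ := hk a ha.1
    obtain ⟨z2, h3, h4⟩ := hk b hb.1
    obtain ⟨z3, h5, h6⟩ := hl a ha.2
    obtain ⟨z4, h7, h8⟩ := hl b hb.2
    refine (Finset.disjoint_left.1 hd : ∀ ⦃u⦄, u ∈ _ → u ∉ _) (?_ : s(a, b) ∈ _) ?_
    · rw [mem_A]
      refine ⟨z1, z2, ?_, by rw [h1, h3], h2, h4⟩
      rintro rfl
      exact hab (h2.symm.trans h4)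
    · rw [mem_A]
      refine ⟨z3, z4, ?_, by rw [h5, h7], h6, h8⟩
      rintro rfl
      exact hab (h6.symm.trans h8)
  have hdist : ∀ i j, i ≠ j → ∀ x ∈ P i, ∀ y ∈ P j, 2 * (w - 2) + 1 ≤ hammingDist x y := by
    intro i j hij x hx y hy
    have h1 := hint i j hij x hx y hy
    have hxw := hx.1
    have hyw := hy.1
    have h2 : (supp x \ supp y) ∪ (supp y \ supp x) ⊆ univ.filter fun i => x i ≠ y i := by
      intro a ha
      simp only [mem_union, Finset.mem_sdiff, supp, mem_filter, mem_univ, true_and] at ha ⊢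
      rcases ha with ⟨h3, h4⟩ | ⟨h3, h4⟩
      · rw [h3]; exact fun h => h4 h.symm
      · rw [h3]; exact h4
    have h3 : hammingDist x y = (univ.filter fun i => x i ≠ y i).card := rfl
    have h4 : Disjoint (supp x \ supp y) (supp y \ supp x) := by
      rw [Finset.disjoint_left]
      intro a ha hb
      rw [Finset.mem_sdiff] at ha hb
      exact ha.2 hb.1
    have h5 := card_le_card h2
    rw [card_union_of_disjoint h4] at h5
    have h6 := card_sdiff_add_card_inter (supp x) (supp y)
    have h7 := card_sdiff_add_card_inter (supp y) (supp x)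
    rw [inter_comm] at h7
    rw [h3]
    omega
  -- a word with given support
  have hword : ∀ S : Finset (Fin n), supp (fun i => decide (i ∈ S)) = S := by
    intro S; ext a; simp [supp]
  have havoid : ∀ T : Finset (Fin n), T.card = t → ∀ i, ∃ x ∈ P i, Disjoint (supp x) T := by
    intro T hT i
    have hinj := hM1 _ (e i).2
    set φ := (e i).1 with hφ
    -- it suffices to find `w` elements of one block outside `T`
    have key : ∃ j : Fin t, w ≤ (((univ.filter fun z => blk ht z = j).image φ) \ T).card := by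
      by_contra hcon
      push Not at hcon
      -- every block meets `T`, block `0` in at least two points
      have hbc : ∀ j : Fin t, w ≤ (univ.filter fun z : J t w => blk ht z = j).card := by
        intro j
        have : (univ : Finset (Fin w)).image (fun i => (some (j, i) : J t w)) ⊆
            (univ.filter fun z : J t w => blk ht z = j) := by
          intro z hz
          obtain ⟨i, -, rfl⟩ := mem_image.1 hz
          exact mem_filter.2 ⟨mem_univ _, rfl⟩
        calc w = ((univ : Finset (Fin w)).image (fun i => (some (j, i) : J t w))).card := by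
              rw [card_image_of_injective, card_univ, Fintype.card_fin]
              intro a b hab
              simpa using hab
          _ ≤ _ := card_le_card this
      have hb0 : w + 1 ≤ (univ.filter fun z : J t w => blk ht z = ⟨0, ht⟩).card := by
        have : insert none ((univ : Finset (Fin w)).image
            (fun i => (some (⟨0, ht⟩, i) : J t w))) ⊆
            (univ.filter fun z : J t w => blk ht z = ⟨0, ht⟩) := by
          intro z hz
          rw [mem_insert] at hz
          rcases hz with rfl | hz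
          · exact mem_filter.2 ⟨mem_univ _, rfl⟩
          · obtain ⟨i, -, rfl⟩ := mem_image.1 hz
            exact mem_filter.2 ⟨mem_univ _, rfl⟩
        calc w + 1 = (insert none ((univ : Finset (Fin w)).image
              (fun i => (some (⟨0, ht⟩, i) : J t w)))).card := by
              rw [card_insert_of_notMem (by simp), card_image_of_injective, card_univ,
                Fintype.card_fin]
              intro a b hab
              simpa using hab
          _ ≤ _ := card_le_card this
      have hmeet : ∀ j : Fin t, (if j = ⟨0, ht⟩ then 2 else 1) ≤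
          (((univ.filter fun z => blk ht z = j).image φ) ∩ T).card := by
        intro j
        have h1 := hcon j
        have h2 := card_sdiff_add_card_inter ((univ.filter fun z => blk ht z = j).image φ) T
        rw [card_image_of_injective _ hinj] at h2
        have h3 := hbc j
        split_ifs with hj
        · subst hj; omega
        · omega
      have hsumle : ∑ j : Fin t, (((univ.filter fun z => blk ht z = j).image φ) ∩ T).card ≤
          T.card := by
        rw [← card_biUnion]
        · apply card_le_card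
          intro a ha
          obtain ⟨j, -, h⟩ := mem_biUnion.1 ha
          exact (mem_inter.1 h).2
        · intro j _ k _ hjk
          rw [Function.onFun, Finset.disjoint_left]
          intro a ha hb
          rw [mem_inter, mem_image] at ha hb
          obtain ⟨⟨z, hz, hza⟩, -⟩ := ha
          obtain ⟨⟨z', hz', hza'⟩, -⟩ := hb
          have : z = z' := hinj (hza.trans hza'.symm)
          subst this
          exact hjk ((mem_filter.1 hz).2.symm.trans (mem_filter.1 hz').2)
      have hsum2 : ∑ j : Fin t, (if j = ⟨0, ht⟩ then 2 else 1) = t + 1 := by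
        have : ∀ j : Fin t, (if j = ⟨0, ht⟩ then 2 else 1) = 1 + (if j = ⟨0, ht⟩ then 1 else 0) := by
          intro j; split_ifs <;> rfl
        rw [sum_congr rfl fun j _ => this j, sum_add_distrib, sum_ite_eq' univ, sum_const,
          card_univ, Fintype.card_fin]
        simp
      have := sum_le_sum fun j (_ : j ∈ (univ : Finset (Fin t))) => hmeet j
      rw [hsum2] at this
      omega
    obtain ⟨j, hj⟩ := key
    obtain ⟨S, hS, hSc⟩ := exists_subset_card_eq hj
    refine ⟨fun i => decide (i ∈ S), ⟨?_, j, ?_⟩, ?_⟩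
    · rw [hword, hSc]
    · rw [hword]
      intro a ha
      have := hS ha
      rw [Finset.mem_sdiff, mem_image] at this
      obtain ⟨⟨z, hz, hza⟩, -⟩ := this
      exact ⟨z, (mem_filter.1 hz).2, hza⟩
    · rw [hword, Finset.disjoint_left]
      intro a ha haT
      have := hS ha
      rw [Finset.mem_sdiff] at this
      exact this.2 haT
  have hnon : ∀ i, (P i).Nonempty := by
    intro i
    have hinj := hM1 _ (e i).2
    set φ := (e i).1 with hφ
    have hcard : t ≤ n := by
      have h1 := Fintype.card_le_of_injective _ hinj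
      have h2 : Fintype.card (J t w) = t * w + 1 := by simp [J]
      rw [h2, Fintype.card_fin] at h1
      have : t * 1 ≤ t * w := Nat.mul_le_mul_left t (by omega)
      omega
    obtain ⟨T, -, hT⟩ := exists_subset_card_eq (s := (univ : Finset (Fin n))) (n := t)
      (by rw [card_univ, Fintype.card_fin]; exact hcard)
    obtain ⟨x, hx, -⟩ := havoid T hT i
    exact ⟨x, hx⟩
  refine ⟨P, hnon, ?_, havoid, ?_, hdist⟩
  · intro i j hij
    rw [Set.disjoint_left]
    intro x hx hy
    have := hint i j hij x hx x hy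
    rw [inter_self, hx.1] at this
    omega
  · intro i x hx
    exact hx.1.le

/-- For all `t ≥ 1`, `w ≥ 4`: `liminf C(n,t,w,w-2)/n² ≥ 1/((t+1)w(w-1) - w(w-3))`, the limit is
not `1/((t+1)w(w-1))`, and `C(n,t,w,w-2) = ⌊n(n+1)/((t+1)w(w-1))⌋` holds for only finitely many
`n`. -/
theorem result (t w : ℕ) (ht : 1 ≤ t) (hw : 4 ≤ w) :
    (∀ ε : ℝ, 0 < ε → ∀ᶠ n : ℕ in atTop,
      (1 - ε) / (((t : ℝ) + 1) * w * (w - 1) - w * (w - 3)) ≤
        (C n t w (w - 2) : ℝ) / (n : ℝ) ^ 2) ∧
    ¬ Tendsto (fun n : ℕ => (C n t w (w - 2) : ℝ) / (n : ℝ) ^ 2) atTop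
      (𝓝 (1 / (((t : ℝ) + 1) * w * (w - 1)))) ∧
    ¬ ∃ᶠ n : ℕ in atTop, C n t w (w - 2) = n * (n + 1) / ((t + 1) * w * (w - 1)) := by
  have hwr : (4 : ℝ) ≤ w := by exact_mod_cast hw
  have htr : (1 : ℝ) ≤ t := by exact_mod_cast ht
  set Dr : ℝ := ((t : ℝ) + 1) * w * (w - 1) - w * (w - 3) with hDr
  set Er : ℝ := ((t : ℝ) + 1) * w * (w - 1) with hEr
  have hDcast : ((t * (w * (w - 1 : ℕ)) + 2 * w : ℕ) : ℝ) = Dr := by
    rw [hDr]
    push_cast [Nat.cast_sub (show 1 ≤ w by omega)]
    ring
  have hDpos : 0 < Dr := by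
    rw [← hDcast]
    have : 0 < t * (w * (w - 1)) + 2 * w := by omega
    exact_mod_cast this
  have hDE : Dr < Er := by
    have : 0 < (w : ℝ) * (w - 3) := by nlinarith
    rw [hDr]; linarith
  have hEpos : 0 < Er := hDpos.trans hDE
  have main : ∀ ε : ℝ, 0 < ε → ∀ᶠ n : ℕ in atTop,
      (1 - ε) / Dr ≤ (C n t w (w - 2) : ℝ) / (n : ℝ) ^ 2 := by
    intro ε hε
    obtain ⟨N, hN⟩ := Pool.Agent.V11181.Copies.packing t w ht (by omega) (min ε (1 / 2))
      (lt_min hε (by norm_num)) (lt_of_le_of_lt (min_le_right _ _) (by norm_num))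
    filter_upwards [eventually_ge_atTop (max N 1)] with n hn
    have hnN : N ≤ n := le_trans (le_max_left _ _) hn
    have hn1 : 1 ≤ n := le_trans (le_max_right _ _) hn
    obtain ⟨M, hM1, hM2, hM3⟩ := hN n hnN
    have h1 : (M.card : ℝ) ≤ (C n t w (w - 2) : ℝ) := by
      exact_mod_cast code_of_packing ht (by omega) M hM1 hM2
    have hn2 : (0 : ℝ) < (n : ℝ) ^ 2 := by
      have : (0 : ℝ) < n := by exact_mod_cast hn1
      positivity
    rw [hDcast] at hM3
    rw [div_le_div_iff₀ hDpos hn2]
    have h2 : (1 - ε) * ((n : ℝ) ^ 2 / Dr) ≤ (C n t w (w - 2) : ℝ) := by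
      refine le_trans ?_ (hM3.trans h1)
      apply mul_le_mul_of_nonneg_right _ (by positivity)
      have := min_le_left ε (1 / 2)
      linarith
    have h3 : (1 - ε) * (n : ℝ) ^ 2 = (1 - ε) * ((n : ℝ) ^ 2 / Dr) * Dr := by
      field_simp
    rw [h3]
    exact mul_le_mul_of_nonneg_right h2 hDpos.le
  -- a constant strictly between
  have hinv : 1 / Er < 1 / Dr := one_div_lt_one_div_of_lt hDpos hDE
  set δ : ℝ := (1 / Dr - 1 / Er) / 3 with hδ
  have hδpos : 0 < δ := by rw [hδ]; linarith
  have hbig : ∀ᶠ n : ℕ in atTop, 1 / Er + 2 * δ ≤ (C n t w (w - 2) : ℝ) / (n : ℝ) ^ 2 := by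
    filter_upwards [main (δ * Dr) (by positivity)] with n hn
    refine le_trans (le_of_eq ?_) hn
    rw [sub_div, mul_div_assoc, div_self hDpos.ne', mul_one]
    rw [hδ]; ring
  refine ⟨main, ?_, ?_⟩
  · intro hlim
    have h1 := hlim.eventually (gt_mem_nhds (show 1 / Er < 1 / Er + 2 * δ by linarith))
    obtain ⟨n, h2, h3⟩ := (h1.and hbig).exists
    exact absurd h2 (not_lt.2 h3)
  · intro hfreq
    obtain ⟨N1, hN1⟩ := exists_nat_gt (1 / (Er * δ))
    have h4 : ∀ᶠ n : ℕ in atTop, max N1 1 ≤ n := eventually_ge_atTop _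
    obtain ⟨n, h5, h6, h7⟩ := (hfreq.and_eventually (hbig.and h4)).exists
    have hn1 : N1 ≤ n := le_trans (le_max_left _ _) h7
    have hn0 : 1 ≤ n := le_trans (le_max_right _ _) h7
    have hnr : (1 : ℝ) ≤ n := by exact_mod_cast hn0
    have hEcast : (((t + 1) * w * (w - 1) : ℕ) : ℝ) = Er := by
      rw [hEr]
      push_cast [Nat.cast_sub (show 1 ≤ w by omega)]
      ring
    have h8 : (C n t w (w - 2) : ℝ) ≤ (n : ℝ) * (n + 1) / Er := by
      rw [h5]
      refine le_trans Nat.cast_div_le ?_
      rw [hEcast]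
      push_cast
      exact le_refl _
    have h9 : (C n t w (w - 2) : ℝ) / (n : ℝ) ^ 2 ≤ 1 / Er + 1 / (Er * n) := by
      rw [div_le_iff₀ (by positivity)]
      refine h8.trans (le_of_eq ?_)
      field_simp
    have h10 : 1 / (Er * n) < δ := by
      have h11 : (N1 : ℝ) ≤ n := by exact_mod_cast hn1
      have h12 : 1 / (Er * δ) < n := lt_of_lt_of_le hN1 h11
      rw [div_lt_iff₀ (by positivity)] at h12 ⊢
      linarith
    linarith

end Pool.Agent.Results.MP_00ae1c_co.LargerClasses
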